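import Pool.Agent.TH609.UV.Hinge
import Pool.Agent.W737.AR.Gmt

/-!
# The equations for the moduli at a hinge whose critical points may vanish
-/

set_option autoImplicit false

namespace Pool.Agent.TH609.UV

open Pool.Agent.W711.HT hiding XX
open Pool.Agent.W719.AR (Fl flS)
open Pool.Agent.W737.AR (Lf ze TT edge_alg)
open Pool.Agent.W864.AR
open Pool.Agent.W554.HT (tri)
open scoped Real

noncomputable def be (ψ u : ℂ) : ℝ :=
  Real.log ‖t1 (Complex.exp (Complex.I * u)) (Complex.exp (Complex.I * ψ))‖ +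
    Real.log ‖t2 (Complex.exp (Complex.I * u)) (Complex.exp (Complex.I * ψ))‖

noncomputable def ga (ψ u : ℂ) : ℝ :=
  Real.log ‖t1 (Complex.exp (Complex.I * u)) (Complex.exp (Complex.I * ψ))‖

lemma log_cos {ψ : ℂ} (h1 : 1 + Complex.exp (Complex.I * ψ) ≠ 0) :
    2 * Real.log ‖Complex.cos (ψ / 2)‖ =
      2 * Real.log ‖1 + Complex.exp (Complex.I * ψ)‖ - Real.log 4 -
        Real.log ‖Complex.exp (Complex.I * ψ)‖ := by
  have hG : Complex.exp (Complex.I * ψ) ≠ 0 := Complex.exp_ne_zero _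
  have e : Complex.cos (ψ / 2) ^ 2 = (1 + Complex.exp (Complex.I * ψ)) ^ 2 /
      (4 * Complex.exp (Complex.I * ψ)) := by
    have e0 : Complex.exp (Complex.I * ψ) = Complex.exp (Complex.I * (ψ / 2)) ^ 2 := by
      rw [← Complex.exp_nat_mul]
      congr 1
      push_cast
      ring
    have hg : Complex.exp (Complex.I * (ψ / 2)) ≠ 0 := Complex.exp_ne_zero _
    have e1 : Complex.cos (ψ / 2) = (Complex.exp (Complex.I * (ψ / 2)) +
        (Complex.exp (Complex.I * (ψ / 2)))⁻¹) / 2 := by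
      rw [Complex.cos, ← Complex.exp_neg]
      congr 3
      · ring
      · ring
    rw [e1, e0]
    field_simp
    ring
  have h2 := congrArg (fun z : ℂ => Real.log ‖z‖) e
  simp only [norm_pow, norm_div, norm_mul] at h2
  have n4 : ‖(4 : ℂ)‖ = 4 := by simp
  have hGn : ‖Complex.exp (Complex.I * ψ)‖ ≠ 0 := norm_ne_zero_iff.2 hG
  have h1n : ‖1 + Complex.exp (Complex.I * ψ)‖ ≠ 0 := norm_ne_zero_iff.2 h1
  rw [Real.log_pow, Real.log_div (pow_ne_zero 2 h1n) (mul_ne_zero (by rw [n4]; norm_num) hGn),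
    Real.log_mul (by rw [n4]; norm_num) hGn, Real.log_pow, n4] at h2
  push_cast at h2
  linarith

/-- the equations for the moduli at a hinge -/
theorem lsn {ψ ψ' u : ℂ} (h : HQ ψ ψ' u) :
    Real.log (2 * Real.sin (fe ψ u).a) - Real.log (2 * Real.sin (fe ψ u).c) =
      ψ.im + be ψ u ∧
    Real.log (2 * Real.sin (fe ψ u).b) - Real.log (2 * Real.sin (fe ψ u).c) = ga ψ u ∧
    Real.log (2 * Real.sin (fe ψ u).a') - Real.log (2 * Real.sin (fe ψ u).c') =
      (Lg u ψ).re - ga ψ u ∧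
    Real.log (2 * Real.sin (fe ψ u).b') - Real.log (2 * Real.sin (fe ψ u).c') =
      be ψ u - ga ψ u ∧
    be ψ u - ga ψ u + ga ψ' u = ((Lg u ψ').re - ψ.im) / 2 ∧
    (Lg u ψ).re / 2 - ψ.im / 2 - be ψ u =
      Real.log ‖Complex.cos (ψ / 2)‖ - Real.log ‖Complex.cos (ψ' / 2)‖ := by
  have h' := hq_symm h
  have hn := nr h
  have hn' := nr h'
  have hg1 := hinge h
  have hg2 := hinge h'
  have hX := ne_X hn
  have hX1 := ne_X1 hn
  have hG := ne_G hn
  have hG1 := ne_G1 hn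
  have hXG := ne_XG hn
  have hXaG := ne_XaG hn
  have hK := ne_G hn'
  have hK1 := ne_G1 hn'
  have hXK := ne_XG hn'
  have hXaK := ne_XaG hn'
  have q1 := one_sub_t1 hn
  have q3 := one_sub_t2 hn
  have c1 := log_cos hG1
  have c2 := log_cos hK1
  obtain ⟨-, -, -, -, -, -, -, v1, v2⟩ := tri (re1 hn).2
  obtain ⟨-, -, -, -, -, -, -, w1, w2⟩ := tri (re2 hn).2
  have W := congrArg (fun z : ℂ => Real.log ‖z‖) (exp_form ψ ψ' u h)
  have W' := congrArg (fun z : ℂ => Real.log ‖z‖) (exp_form ψ' ψ u h')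
  have lG : Real.log ‖Complex.exp (Complex.I * ψ)‖ = -ψ.im := by
    rw [Complex.norm_exp, Real.log_exp]
    simp
  simp only [norm_div] at W W'
  rw [Complex.norm_exp, Real.log_exp] at W W'
  have n1 := norm_ne_zero_iff.2 hX
  have n2 := norm_ne_zero_iff.2 hG
  have n3 := norm_ne_zero_iff.2 hG1
  have n4 := norm_ne_zero_iff.2 hXG
  have n5 := norm_ne_zero_iff.2 hXaG
  have n6 := norm_ne_zero_iff.2 hK
  have n7 := norm_ne_zero_iff.2 hK1
  have n8 := norm_ne_zero_iff.2 hXK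
  have n9 := norm_ne_zero_iff.2 hXaK
  have n0 := norm_ne_zero_iff.2 hX1
  rw [Real.log_div n5 n4] at W
  rw [Real.log_div n9 n8] at W'
  simp only [fe, flS, be, ga]
  rw [q1] at v2
  rw [q3] at w2
  set X := Complex.exp (Complex.I * u)
  set G := Complex.exp (Complex.I * ψ)
  set K := Complex.exp (Complex.I * ψ')
  have l1 (G : ℂ) (hG1 : 1 + G ≠ 0) (hXG : 1 + X * G ≠ 0) :
      Real.log ‖t1 X G‖ = Real.log ‖X‖ + Real.log ‖1 + G‖ - Real.log ‖1 + X * G‖ := by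
    rw [t1, norm_div, norm_mul, Real.log_div (mul_ne_zero n1 (by
      rw [add_comm]; exact norm_ne_zero_iff.2 hG1)) (norm_ne_zero_iff.2 hXG),
      Real.log_mul n1 (by rw [add_comm]; exact norm_ne_zero_iff.2 hG1), add_comm G 1]
  have l2 (G : ℂ) (hG : G ≠ 0) (hG1 : 1 + G ≠ 0) :
      Real.log ‖t2 X G‖ = Real.log ‖X - 1‖ + Real.log ‖G‖ - (Real.log ‖X‖ + Real.log ‖1 + G‖) := by
    have m1 := norm_ne_zero_iff.2 hG
    have m2 := norm_ne_zero_iff.2 hG1
    rw [t2, norm_div, norm_mul, norm_mul, Real.log_div (mul_ne_zero n0 m1) (mul_ne_zero n1 m2),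
      Real.log_mul n0 m1, Real.log_mul n1 m2]
  rw [norm_div, norm_sub_rev 1 X, Real.log_div n0 n4] at v2
  rw [norm_div, norm_mul, Real.log_div n5 (mul_ne_zero n1 n3), Real.log_mul n1 n3] at w2
  have H1 := congrArg (fun z : ℂ => Real.log ‖z‖) hg1
  have H2 := congrArg (fun z : ℂ => Real.log ‖z‖) hg2
  simp only [norm_neg, norm_mul, norm_pow] at H1 H2
  rw [norm_sub_rev 1 X, Real.log_mul (mul_ne_zero (pow_ne_zero 2 n0) n2) (pow_ne_zero 2 n7),
    Real.log_mul (pow_ne_zero 2 n0) n2, Real.log_mul (pow_ne_zero 2 n3) (mul_ne_zero n8 n9),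
    Real.log_mul n8 n9, Real.log_pow, Real.log_pow, Real.log_pow] at H1
  rw [norm_sub_rev 1 X, Real.log_mul (mul_ne_zero (pow_ne_zero 2 n0) n6) (pow_ne_zero 2 n3),
    Real.log_mul (pow_ne_zero 2 n0) n6, Real.log_mul (pow_ne_zero 2 n7) (mul_ne_zero n4 n5),
    Real.log_mul n4 n5, Real.log_pow, Real.log_pow, Real.log_pow] at H2
  push_cast at H1 H2
  rw [l1 G hG1 hXG] at v1 ⊢
  rw [l1 K hK1 hXK]
  rw [l2 G hG hG1] at w1 ⊢
  refine ⟨?_, ?_, ?_, ?_, ?_, ?_⟩ <;> linarith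

lemma edge_id {ψ ψ' u : ℂ} (h : HQ ψ ψ' u) (f g : Fl) (hf : f.Pos)
    (hg : g.Pos) (hfg : f.b + f.c' + (g.b + g.c') = 2 * π) :
    Lf (fe ψ u) f + Lf (fe ψ' u) g = TT ψ u f g + TT ψ' u g f := by
  obtain ⟨p1, s2, s3, s4, s5, s6⟩ := shp h
  obtain ⟨p1', s2', s3', s4', s5', s6'⟩ := shp (hq_symm h)
  obtain ⟨l1, l2, l3, l4, l5, l6⟩ := lsn h
  obtain ⟨m1, m2, m3, m4, m5, m6⟩ := lsn (hq_symm h)
  obtain ⟨-, -, -, q1, -, -, -, q2⟩ := p1
  obtain ⟨-, -, -, q3, -, -, -, q4⟩ := p1'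
  obtain ⟨-, -, -, q5, -, -, -, q6⟩ := hf
  obtain ⟨-, -, -, q7, -, -, -, q8⟩ := hg
  have key := edge_alg (f.a - (fe ψ u).a) (f.b - (fe ψ u).b) (f.c - (fe ψ u).c)
    (f.a' - (fe ψ u).a') (f.b' - (fe ψ u).b') (f.c' - (fe ψ u).c')
    (g.a - (fe ψ' u).a) (g.b - (fe ψ' u).b) (g.c - (fe ψ' u).c)
    (g.a' - (fe ψ' u).a') (g.b' - (fe ψ' u).b') (g.c' - (fe ψ' u).c')
    (Real.log (2 * Real.sin (fe ψ u).a)) (Real.log (2 * Real.sin (fe ψ u).b))
    (Real.log (2 * Real.sin (fe ψ u).c)) (Real.log (2 * Real.sin (fe ψ u).a'))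
    (Real.log (2 * Real.sin (fe ψ u).b')) (Real.log (2 * Real.sin (fe ψ u).c'))
    (Real.log (2 * Real.sin (fe ψ' u).a)) (Real.log (2 * Real.sin (fe ψ' u).b))
    (Real.log (2 * Real.sin (fe ψ' u).c)) (Real.log (2 * Real.sin (fe ψ' u).a'))
    (Real.log (2 * Real.sin (fe ψ' u).b')) (Real.log (2 * Real.sin (fe ψ' u).c'))
    0 (be ψ u) (ga ψ u) 0 (be ψ' u) (ga ψ' u) ψ.im (Lg u ψ).re ψ'.im (Lg u ψ').re
    (Real.log ‖Complex.cos (ψ / 2)‖) (Real.log ‖Complex.cos (ψ' / 2)‖)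
    (by linarith) (by linarith) (by linarith) (by linarith) (by linarith)
    (by linarith) (by linarith) (by linarith) (by linarith) (by linarith) (by linarith)
    (by linarith) (by linarith) (by linarith) (by linarith) (by linarith)
  have e1 : f.tw - ψ.re = (f.a - (fe ψ u).a) + (f.a' - (fe ψ u).a') + (f.b - (fe ψ u).b) := by
    rw [← s5]; unfold Fl.tw; ring
  have e2 : f.cr - (Lg u ψ).im =
      (f.a - (fe ψ u).a) + (f.a' - (fe ψ u).a') + (f.c' - (fe ψ u).c') := by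
    rw [← s6]; unfold Fl.cr; ring
  have e3 : g.tw - ψ'.re =
      (g.a - (fe ψ' u).a) + (g.a' - (fe ψ' u).a') + (g.b - (fe ψ' u).b) := by
    rw [← s5']; unfold Fl.tw; ring
  have e4 : g.cr - (Lg u ψ').im =
      (g.a - (fe ψ' u).a) + (g.a' - (fe ψ' u).a') + (g.c' - (fe ψ' u).c') := by
    rw [← s6']; unfold Fl.cr; ring
  have e5 : ze f g = 2 * (f.a' - (fe ψ u).a') + ((g.a - (fe ψ' u).a) + (g.b' - (fe ψ' u).b')) -
      ((f.a - (fe ψ u).a) + (f.a' - (fe ψ u).a') + (f.b - (fe ψ u).b)) := by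
    rw [← e1]; unfold ze; linarith
  have e6 : ze g f = 2 * (g.a' - (fe ψ' u).a') + ((f.a - (fe ψ u).a) + (f.b' - (fe ψ u).b')) -
      ((g.a - (fe ψ' u).a) + (g.a' - (fe ψ' u).a') + (g.b - (fe ψ' u).b)) := by
    rw [← e3]; unfold ze; linarith
  unfold Lf TT
  rw [e1, e2, e3, e4, e5, e6]
  exact key

/-- at a critical point `0` the term of an edge vanishes -/
lemma TT_zero (u : ℂ) (f g : Fl) : TT 0 u f g = 0 := by
  unfold TT
  have h0 : Lg u 0 = 0 := by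
    unfold Lg
    rw [sub_zero, add_zero]
    by_cases h : Complex.cos (u / 2) = 0
    · rw [h, div_zero, Complex.log_zero]
    · rw [div_self h, Complex.log_one]
  rw [h0]
  simp

end Pool.Agent.TH609.UV
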