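import Pool.Agent.TH563.UV.Geo
import Pool.Agent.W864.AR.SHP
import Pool.Agent.W719.AR.FinalA

/-!
# Hinges whose critical points may vanish

The angles at a hinge in terms of `X = e^(iu)`, `G = e^(iψ)`: the formulas make sense at `ψ = 0`.
-/

set_option autoImplicit false

namespace Pool.Agent.TH609.UV

open Pool.Agent.W711.HT hiding XX
open Pool.Agent.W719.AR (Fl flS)
open Pool.Agent.W864.AR
open Pool.Agent.W612.HT (cos_sub_one_le cos_small cos_ne ratio_slit Lg_deriv sum_near sum_ge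
  half_cos half_small half_ne)
open Pool.Agent.W709.VC (Dv S_TET S_DSYM S_FIVE)
open Pool.Agent.W554.HT (tri ang_eq)
open scoped Real

/-- the conditions at a hinge; the critical points may vanish -/
structure HQ (ψ ψ' u : ℂ) : Prop where
  sm : ‖ψ‖ ≤ 1 / 10
  sm' : ‖ψ'‖ ≤ 1 / 10
  un : ‖u - π / 2‖ ≤ π / 8
  eq : Complex.cos u = (1 - Complex.cos ψ * Complex.cos ψ') /
    (2 + Complex.cos ψ + Complex.cos ψ')

lemma hq_symm {ψ ψ' u : ℂ} (h : HQ ψ ψ' u) : HQ ψ' ψ u :=
  ⟨h.sm', h.sm, h.un, by rw [h.eq, mul_comm, add_right_comm]⟩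

/-- basic estimates -/
lemma basic (ψ ψ' u : ℂ) (h : HQ ψ ψ' u) : ‖Complex.cos u‖ ≤ 6 / 1000 ∧
    ‖Complex.sin u - 1‖ ≤ 1 / 1000 := by
  have h1 := cos_sub_one_le ψ (h.sm.trans (by norm_num))
  have h2 := cos_sub_one_le ψ' (h.sm'.trans (by norm_num))
  have h1' : ‖Complex.cos ψ - 1‖ ≤ 1 / 100 := by
    have := h.sm
    have h0 := norm_nonneg ψ
    nlinarith
  have h2' : ‖Complex.cos ψ' - 1‖ ≤ 1 / 100 := by
    have := h.sm'
    have h0 := norm_nonneg ψ'
    nlinarith
  set α := Complex.cos ψ - 1 with hα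
  set β := Complex.cos ψ' - 1 with hβ
  have hden : 398 / 100 ≤ ‖2 + Complex.cos ψ + Complex.cos ψ'‖ := by
    have e : (4 : ℂ) = (2 + Complex.cos ψ + Complex.cos ψ') - (α + β) := by
      rw [hα, hβ]; ring
    have h3 : ‖(4 : ℂ)‖ ≤ ‖2 + Complex.cos ψ + Complex.cos ψ'‖ + ‖α + β‖ := by
      conv_lhs => rw [e]
      exact norm_sub_le _ _
    have h4 := norm_add_le α β
    have h5 : ‖(4 : ℂ)‖ = 4 := by simp
    linarith
  have hnum : ‖1 - Complex.cos ψ * Complex.cos ψ'‖ ≤ 201 / 10000 := by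
    have e : 1 - Complex.cos ψ * Complex.cos ψ' = -(α + β + α * β) := by
      rw [hα, hβ]; ring
    rw [e, norm_neg]
    have h3 := norm_add_le (α + β) (α * β)
    have h4 := norm_add_le α β
    rw [norm_mul] at h3
    have h5 : ‖α‖ * ‖β‖ ≤ 1 / 100 * (1 / 100) :=
      mul_le_mul h1' h2' (norm_nonneg _) (by norm_num)
    linarith
  have hcos : ‖Complex.cos u‖ ≤ 51 / 10000 := by
    rw [h.eq, norm_div, div_le_iff₀ (by linarith)]
    nlinarith
  refine ⟨by linarith, ?_⟩
  set v := u - π / 2 with hv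
  have hu : u = v + π / 2 := by rw [hv]; ring
  have hvn : ‖v‖ ≤ 394 / 1000 := by
    have := h.un
    have hpi := Real.pi_lt_d2
    linarith
  have hs := Pool.Agent.W612.HT.sin_sub_id_le v (hvn.trans (by norm_num))
  have hcu : Complex.cos u = - Complex.sin v := by
    rw [hu, Complex.cos_add_pi_div_two]
  have hsu : Complex.sin u = Complex.cos v := by
    rw [hu, Complex.sin_add_pi_div_two]
  rw [hcu, norm_neg] at hcos
  have h3 : ‖v‖ ≤ ‖Complex.sin v‖ + ‖Complex.sin v - v‖ := by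
    have : v = Complex.sin v - (Complex.sin v - v) := by ring
    conv_lhs => rw [this]
    exact norm_sub_le _ _
  have h4 : ‖v‖ ≤ 1 / 100 := by
    have h0 := norm_nonneg v
    nlinarith
  rw [hsu]
  have h5 := cos_sub_one_le v (hvn.trans (by norm_num))
  have h0 := norm_nonneg v
  nlinarith

lemma Lg_bound (ψ ψ' u : ℂ) (h : HQ ψ ψ' u) : ‖Lg u ψ - ψ‖ ≤ ‖ψ‖ / 10 := by
  obtain ⟨hu, hsu⟩ := basic ψ ψ' u h
  have h0 : Lg u 0 = 0 := by
    unfold Lg
    have := (cos_ne u 0 hu (by simp)).2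
    rw [sub_zero, add_zero] at *
    rw [div_self this, Complex.log_one]
  have key : ‖(Lg u ψ - ψ) - (Lg u 0 - 0)‖ ≤ 1 / 10 * ‖ψ - 0‖ := by
    apply (convex_closedBall (0 : ℂ) (1 / 10)).norm_image_sub_le_of_norm_hasDerivWithin_le
      (f := fun s => Lg u s - s) (f' := fun s => Complex.sin u / (Complex.cos u + Complex.cos s) - 1)
    · intro s hs
      have hs' : ‖s‖ ≤ 1 / 10 := by simpa using hs
      exact ((Lg_deriv u s hu hsu hs').sub (hasDerivAt_id s)).hasDerivWithinAt
    · intro s hs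
      have hs' : ‖s‖ ≤ 1 / 10 := by simpa using hs
      have hge := sum_ge u s hu hs'
      have hd : Complex.cos u + Complex.cos s ≠ 0 := by
        intro h
        rw [h, norm_zero] at hge
        norm_num at hge
      rw [div_sub_one hd, norm_div, div_le_iff₀ (by linarith)]
      have e : Complex.sin u - (Complex.cos u + Complex.cos s) = (Complex.sin u - 1) -
        (Complex.cos u + Complex.cos s - 1) := by ring
      rw [e]
      have g1 := norm_sub_le (Complex.sin u - 1) (Complex.cos u + Complex.cos s - 1)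
      have g2 := sum_near u s hu hs'
      linarith
    · simp
    · simpa using h.sm
  rw [h0, sub_zero, sub_zero, sub_zero] at key
  linarith

lemma exp_form (ψ ψ' u : ℂ) (h : HQ ψ ψ' u) : Complex.exp (Lg u ψ) =
    (Complex.exp (Complex.I * u) + Complex.exp (Complex.I * ψ)) /
      (1 + Complex.exp (Complex.I * u) * Complex.exp (Complex.I * ψ)) := by
  obtain ⟨hu, hsu⟩ := basic ψ ψ' u h
  obtain ⟨hA, hB⟩ := cos_ne u ψ hu h.sm
  have e0 : Complex.exp (Lg u ψ) = Complex.cos ((u - ψ) / 2) / Complex.cos ((u + ψ) / 2) := by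
    unfold Lg
    rw [Complex.exp_log (div_ne_zero hA hB)]
  rw [e0]
  set x := Complex.exp (Complex.I * u / 2) with hx
  set g := Complex.exp (Complex.I * ψ / 2) with hg
  have hx0 : x ≠ 0 := Complex.exp_ne_zero _
  have hg0 : g ≠ 0 := Complex.exp_ne_zero _
  have ex : Complex.exp (Complex.I * u) = x ^ 2 := by
    rw [hx, ← Complex.exp_nat_mul]
    congr 1
    push_cast
    ring
  have eg : Complex.exp (Complex.I * ψ) = g ^ 2 := by
    rw [hg, ← Complex.exp_nat_mul]
    congr 1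
    push_cast
    ring
  have eA : Complex.cos ((u - ψ) / 2) = (x ^ 2 + g ^ 2) / (2 * x * g) := by
    rw [Complex.cos]
    have e1 : Complex.exp ((u - ψ) / 2 * Complex.I) = x / g := by
      rw [hx, hg, ← Complex.exp_sub]
      congr 1
      ring
    have e2 : Complex.exp (-((u - ψ) / 2) * Complex.I) = g / x := by
      rw [hx, hg, ← Complex.exp_sub]
      congr 1
      ring
    rw [e1, e2]
    field_simp
  have eB : Complex.cos ((u + ψ) / 2) = (1 + x ^ 2 * g ^ 2) / (2 * x * g) := by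
    rw [Complex.cos]
    have e1 : Complex.exp ((u + ψ) / 2 * Complex.I) = x * g := by
      rw [hx, hg, ← Complex.exp_add]
      congr 1
      ring
    have e2 : Complex.exp (-((u + ψ) / 2) * Complex.I) = 1 / (x * g) := by
      rw [one_div, hx, hg, ← Complex.exp_add, ← Complex.exp_neg]
      congr 1
      ring
    rw [e1, e2]
    field_simp
    ring
  rw [ex, eg, eA, eB]
  have hB' : 1 + x ^ 2 * g ^ 2 ≠ 0 := by
    intro h0
    rw [eB, h0, zero_div] at hB
    exact hB rfl
  field_simp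

lemma den {ψ ψ' u : ℂ} (h : HQ ψ ψ' u) : 2 + Complex.cos ψ + Complex.cos ψ' ≠ 0 := by
  have h1 := cos_small ψ h.sm
  have h2 := cos_small ψ' h.sm'
  intro h0
  have e : (4 : ℂ) = -((Complex.cos ψ - 1) + (Complex.cos ψ' - 1)) := by
    linear_combination h0
  have h3 : ‖(4 : ℂ)‖ ≤ ‖Complex.cos ψ - 1‖ + ‖Complex.cos ψ' - 1‖ := by
    rw [e, norm_neg]
    exact norm_add_le _ _
  have h5 : ‖(4 : ℂ)‖ = 4 := by simp
  linarith

/-- the hinge equation -/
lemma hinge {ψ ψ' u : ℂ} (h : HQ ψ ψ' u) :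
    -((1 - Complex.exp (Complex.I * u)) ^ 2 * Complex.exp (Complex.I * ψ) *
      (1 + Complex.exp (Complex.I * ψ')) ^ 2) =
    (1 + Complex.exp (Complex.I * ψ)) ^ 2 *
      ((1 + Complex.exp (Complex.I * u) * Complex.exp (Complex.I * ψ')) *
        (Complex.exp (Complex.I * u) + Complex.exp (Complex.I * ψ'))) := by
  have e1 := h.eq
  rw [eq_div_iff (den h)] at e1
  have hX : Complex.exp (Complex.I * u) ≠ 0 := Complex.exp_ne_zero _
  have hG : Complex.exp (Complex.I * ψ) ≠ 0 := Complex.exp_ne_zero _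
  have hK : Complex.exp (Complex.I * ψ') ≠ 0 := Complex.exp_ne_zero _
  have c (z : ℂ) : Complex.cos z = (Complex.exp (Complex.I * z) + (Complex.exp (Complex.I * z))⁻¹) / 2 := by
    rw [Complex.cos, ← Complex.exp_neg]
    congr 3
    · ring
    · ring
  rw [c u, c ψ, c ψ'] at e1
  set X := Complex.exp (Complex.I * u)
  set G := Complex.exp (Complex.I * ψ)
  set K := Complex.exp (Complex.I * ψ')
  field_simp at e1
  linear_combination (-1) * e1

lemma nr {ψ ψ' u : ℂ} (h : HQ ψ ψ' u) :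
    Nr (Complex.exp (Complex.I * u)) (Complex.exp (Complex.I * ψ)) := by
  have hb := basic ψ ψ' u h
  constructor
  · have e : Complex.exp (Complex.I * u) - Complex.I =
        Complex.cos u + (Complex.sin u - 1) * Complex.I := by
      rw [mul_comm, Complex.exp_mul_I]
      ring
    rw [e]
    have h1 := norm_add_le (Complex.cos u) ((Complex.sin u - 1) * Complex.I)
    rw [norm_mul, Complex.norm_I, mul_one] at h1
    linarith [hb.1, hb.2]
  · have hs := h.sm
    have h0 := norm_nonneg ψ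
    have h1 : ‖Complex.exp (Complex.I * ψ) - 1 - Complex.I * ψ‖ ≤ ‖Complex.I * ψ‖ ^ 2 :=
      Complex.norm_exp_sub_one_sub_id_le (by rw [norm_mul, Complex.norm_I, one_mul]; linarith)
    have h2 := norm_add_le (Complex.exp (Complex.I * ψ) - 1 - Complex.I * ψ) (Complex.I * ψ)
    rw [sub_add_cancel] at h2
    rw [norm_mul, Complex.norm_I, one_mul] at h1 h2
    nlinarith

/-- the angles at a hinge -/
noncomputable def fe (ψ u : ℂ) : Fl :=
  flS (t1 (Complex.exp (Complex.I * u)) (Complex.exp (Complex.I * ψ)))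
    (t2 (Complex.exp (Complex.I * u)) (Complex.exp (Complex.I * ψ)))

theorem shp {ψ ψ' u : ℂ} (h : HQ ψ ψ' u) :
    (fe ψ u).Pos ∧
    (fe ψ u).b + (fe ψ u).c' + ((fe ψ' u).b + (fe ψ' u).c') = 2 * π ∧
    2 * (fe ψ u).c + ((fe ψ' u).a + (fe ψ' u).b') = π - ψ.re ∧
    2 * (fe ψ u).a' + ((fe ψ' u).a + (fe ψ' u).b') = π + ψ.re ∧
    (fe ψ u).tw = ψ.re ∧ (fe ψ u).cr = (Lg u ψ).im := by
  have h' := hq_symm h
  have hW := exp_form ψ ψ' u h
  have hn := nr h
  have hn' := nr h'
  have hg1 := hinge h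
  have hg2 := hinge h'
  have hX := ne_X hn
  have hX1 := ne_X1 hn
  have hG := ne_G hn
  have hG1 := ne_G1 hn
  have hXG := ne_XG hn
  have hXaG := ne_XaG hn
  have hK := ne_G hn'
  have hK1 := ne_G1 hn'
  have hXK := ne_XG hn'
  have hXaK := ne_XaG hn'
  have r1 := re1 hn
  have r2 := re2 hn
  have r3 := re3 hn
  have s1 := re1 hn'
  have s2 := re2 hn'
  have s3 := re3 hn'
  have a1 := arg_half r1.1 r1.2
  have a2 := arg_half r2.1 r2.2
  have b1 := arg_half s1.1 s1.2
  have b2 := arg_half s2.1 s2.2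
  have q1 := one_sub_t1 hn
  have q2 := one_sub_inv_t1 hn
  have q3 := one_sub_t2 hn
  have q4 := one_sub_inv_t2 hn
  have p1 := one_sub_t1 hn'
  have p2 := one_sub_inv_t1 hn'
  have p3 := one_sub_t2 hn'
  have p4 := one_sub_inv_t2 hn'
  obtain ⟨t10, t11, t12, t13, t14, t15, -, -, -⟩ := tri r1.2
  obtain ⟨t20, t21, t22, t23, t24, t25, -, -, -⟩ := tri r2.2
  obtain ⟨u10, u11, u12, u13, u14, u15, -, -, -⟩ := tri s1.2
  obtain ⟨u20, u21, u22, u23, u24, u25, -, -, -⟩ := tri s2.2
  have hLg : |(Lg u ψ).im| ≤ 11 / 100 := by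
    have h2 := Lg_bound ψ ψ' u h
    have e : Lg u ψ = (Lg u ψ - ψ) + ψ := by ring
    have h3 : ‖Lg u ψ‖ ≤ 11 / 100 := by
      rw [e]
      have h4 := norm_add_le (Lg u ψ - ψ) ψ
      have := h.sm
      linarith
    exact (Complex.abs_im_le_norm _).trans h3
  have hre : |ψ.re| ≤ 1 / 10 := (Complex.abs_re_le_norm _).trans h.sm
  rw [abs_le] at hre hLg
  have hpi := Real.pi_gt_three
  have hYe : -Complex.exp (-(Complex.I * ψ)) = -(Complex.exp (Complex.I * ψ))⁻¹ := by
    rw [Complex.exp_neg]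
  have A1 := arg_neg_exp (Complex.I * ψ)
  have A2 := arg_neg_exp (-(Complex.I * ψ))
  rw [hYe] at A2
  have A3 := arg_neg_exp (Lg u ψ)
  rw [hW] at A3
  have i1 : (Complex.I * ψ).im = ψ.re := by simp
  have i2 : (-(Complex.I * ψ)).im = -ψ.re := by simp
  rw [i1] at A1
  rw [i2] at A2
  have c1 := arg_lt_half r3
  rw [← q2] at c1
  have nz1 : (1 : ℂ) - t2 (Complex.exp (Complex.I * u)) (Complex.exp (Complex.I * ψ)) ≠ 0 := t21
  unfold fe
  set X := Complex.exp (Complex.I * u)
  set G := Complex.exp (Complex.I * ψ)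
  set K := Complex.exp (Complex.I * ψ')
  have hX1' : 1 - X ≠ 0 := by
    intro h0
    apply hX1
    linear_combination -h0
  have z1 : 1 / (1 - t1 X G) ≠ 0 := one_div_ne_zero t11
  have z2 : 1 / (1 - t2 X G) ≠ 0 := one_div_ne_zero t21
  have z3 : 1 - 1 / t1 X G ≠ 0 := by rw [q2]; exact div_ne_zero t20 hG
  have z4 : 1 - 1 / t2 X G ≠ 0 := by
    rw [q4]
    exact div_ne_zero (neg_ne_zero.2 hXaG) (mul_ne_zero hX1 hG)
  have y1 : 1 / (1 - t1 X K) ≠ 0 := one_div_ne_zero u11
  have y2 : 1 / (1 - t2 X K) ≠ 0 := one_div_ne_zero u21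
  have y4 : 1 - 1 / t2 X K ≠ 0 := by
    rw [p4]
    exact div_ne_zero (neg_ne_zero.2 hXaK) (mul_ne_zero hX1 hK)
  refine ⟨⟨t14.1, t12.1, t13.1, by simp only [flS]; linarith, t24.1, t22.1, t23.1,
    by simp only [flS]; linarith⟩, ?_, ?_, ?_, ?_, ?_⟩
  · -- the edge
    simp only [flS]
    apply ang_eq
    · have e := arg4 z1 z4 y1 y4
      rw [Real.Angle.coe_two_pi]
      have e2 : 1 / (1 - t1 X G) * (1 - 1 / t2 X G) * (1 / (1 - t1 X K)) * (1 - 1 / t2 X K) = 1 := by
        rw [q1, q4, p1, p4]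
        field_simp
        apply mul_left_cancel₀ (mul_ne_zero (pow_ne_zero 2 hG1) (pow_ne_zero 2 hK1))
        linear_combination (-((1 + K) ^ 2 * ((1 + X * G) * (X + G)))) * hg1 -
          (-((1 - X) ^ 2 * G * (1 + K) ^ 2)) * hg2
      rw [e2, Complex.arg_one, Real.Angle.coe_zero] at e
      rw [← e]
      congr 1
      ring
    · rw [abs_lt]
      constructor <;> linarith [t12.1, t12.2, t23.1, t23.2, u12.1, u12.2, u23.1, u23.2]
  · simp only [flS]
    apply ang_eq
    · have e := arg4 z3 z3 u10 y2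
      have e2 : (1 - 1 / t1 X G) * (1 - 1 / t1 X G) * t1 X K * (1 / (1 - t2 X K)) = -G⁻¹ := by
        rw [q2, p3, t1, t2]
        field_simp
        linear_combination (-1) * hg1
      rw [e2, A2] at e
      have e3 : π - ψ.re = -ψ.re + π := by ring
      rw [e3, ← e]
      congr 1
      ring
    · rw [abs_lt]
      constructor <;> linarith [t13.1, t13.2, b1.1, b1.2, u22.1, u22.2]
  · simp only [flS]
    apply ang_eq
    · have e := arg4 t20 t20 u10 y2
      have e2 : t2 X G * t2 X G * t1 X K * (1 / (1 - t2 X K)) = -G := by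
        rw [p3, t1, t2]
        field_simp
        linear_combination (-1) * hg1
      rw [e2, A1] at e
      have e3 : π + ψ.re = ψ.re + π := by ring
      rw [e3, ← e]
      congr 1
      ring
    · rw [abs_lt]
      constructor <;> linarith [a2.1, a2.2, b1.1, b1.2, u22.1, u22.2]
  · simp only [Fl.tw, flS]
    have : (t1 X G).arg + (t2 X G).arg + (1 / (1 - t1 X G)).arg = ψ.re + π := by
      apply ang_eq
      · have e := arg3 t10 t20 z1
        have e2 : t1 X G * t2 X G * (1 / (1 - t1 X G)) = -G := by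
          rw [q1, t1, t2]
          field_simp
          ring
        rw [e, e2, A1]
      · rw [abs_lt]
        constructor <;> linarith [a1.1, a1.2, a2.1, a2.2, t12.1, t12.2]
    linarith
  · simp only [Fl.cr, flS]
    have : (t1 X G).arg + (t2 X G).arg + (1 - 1 / t2 X G).arg = (Lg u ψ).im + π := by
      apply ang_eq
      · have e := arg3 t10 t20 z4
        have e2 : t1 X G * t2 X G * (1 - 1 / t2 X G) = -((X + G) / (1 + X * G)) := by
          rw [q4, t1, t2]
          field_simp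
          ring
        rw [e, e2, A3]
      · rw [abs_lt]
        constructor <;> linarith [a1.1, a1.2, a2.1, a2.2, t23.1, t23.2]
    linarith

lemma fe_vol (ψ u : ℂ) : (fe ψ u).vol =
    Dv (t1 (Complex.exp (Complex.I * u)) (Complex.exp (Complex.I * ψ))) +
      Dv (t2 (Complex.exp (Complex.I * u)) (Complex.exp (Complex.I * ψ))) := by
  unfold fe flS Fl.vol Dv
  simp only

/-- the volume at a hinge -/
theorem vlf {ψ ψ' u : ℂ} (h : HQ ψ ψ' u) : 2 * ((fe ψ u).vol + (fe ψ' u).vol) = hv ψ ψ' u := by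
  have hS : S_DSYM := W505.VC.dsym
  have hF : S_FIVE := W505.VC.five
  have hid : S_HID := W883.HT.Hid.main hS hF
  have h' := hq_symm h
  have hn := nr h
  have hn' := nr h'
  have hg1 := hinge h
  have hX := ne_X hn
  have hX1 := ne_X1 hn
  have hG := ne_G hn
  have hG1 := ne_G1 hn
  have hXG := ne_XG hn
  have hXaG := ne_XaG hn
  have hK := ne_G hn'
  have hK1 := ne_G1 hn'
  have hXK := ne_XG hn'
  have hXaK := ne_XaG hn'
  rw [fe_vol, fe_vol]
  have eE : hv ψ ψ' u = 4 * Dv (Complex.exp (Complex.I * u)) +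
      Dv (-(Complex.exp (Complex.I * ψ) / Complex.exp (Complex.I * u))) +
      Dv (-(1 / (Complex.exp (Complex.I * u) * Complex.exp (Complex.I * ψ)))) +
      Dv (-(Complex.exp (Complex.I * ψ') / Complex.exp (Complex.I * u))) +
      Dv (-(1 / (Complex.exp (Complex.I * u) * Complex.exp (Complex.I * ψ')))) := by
    unfold hv
    have e1 (z : ℂ) : -Complex.exp (Complex.I * (z - u)) =
        -(Complex.exp (Complex.I * z) / Complex.exp (Complex.I * u)) := by
      rw [mul_sub, Complex.exp_sub]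
    have e2 (z : ℂ) : -Complex.exp (-(Complex.I * (u + z))) =
        -(1 / (Complex.exp (Complex.I * u) * Complex.exp (Complex.I * z))) := by
      rw [Complex.exp_neg, mul_add, Complex.exp_add, one_div]
    rw [e1, e1, e2, e2]
  rw [eE]
  generalize Complex.exp (Complex.I * u) = X at *
  generalize Complex.exp (Complex.I * ψ) = G at *
  generalize Complex.exp (Complex.I * ψ') = K at *
  have hX1' : 1 - X ≠ 0 := by
    intro h0
    apply hX1
    linear_combination -h0
  have hXne : X ≠ 1 := fun h0 => hX1 (by rw [h0]; ring)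
  have hGne : G ≠ -1 := fun h0 => hG1 (by rw [h0]; ring)
  have hKne : K ≠ -1 := fun h0 => hK1 (by rw [h0]; ring)
  have hG1' : G + 1 ≠ 0 := by rwa [add_comm]
  have hK1' : K + 1 ≠ 0 := by rwa [add_comm]
  have heq : -((1 - X) ^ 2 * G / (X * (1 + G) ^ 2)) + -((1 - X) ^ 2 * K / (X * (1 + K) ^ 2)) = 1 := by
    field_simp
    linear_combination hg1
  have key := hid G K X hG hK hX hGne hKne hXne (by rwa [add_comm]) hXG (by rwa [add_comm]) hXK heq
  obtain ⟨-, hS1, hS2⟩ := hS
  -- the five term relation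
  have x0 : (1 - X) / (1 + X * K) ≠ 0 := div_ne_zero hX1' hXK
  have y0 : (1 + K) / (1 + X * K) ≠ 0 := div_ne_zero hK1 hXK
  have ex : 1 - (1 - X) / (1 + X * K) = t1 X K := by
    rw [t1]; field_simp; ring
  have ey : 1 - (1 + K) / (1 + X * K) = K * (X - 1) / (1 + X * K) := by
    rw [eq_div_iff hXK, sub_mul, div_mul_cancel₀ _ hXK]; ring
  have ht1 : t1 X K ≠ 0 := by
    rw [t1]; exact div_ne_zero (mul_ne_zero hX hK1') hXK
  have x1 : (1 - X) / (1 + X * K) ≠ 1 := by
    intro h0; rw [h0, sub_self] at ex; exact ht1 ex.symm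
  have y1 : (1 + K) / (1 + X * K) ≠ 1 := by
    intro h0
    rw [h0, sub_self] at ey
    exact div_ne_zero (mul_ne_zero hK hX1) hXK ey.symm
  have xy : (1 - X) / (1 + X * K) ≠ (1 + K) / (1 + X * K) := by
    intro h0
    rw [div_left_inj' hXK] at h0
    exact hXaK (by linear_combination -h0)
  have five := hF _ _ x0 x1 y0 y1 xy
  have f1 : (1 + K) / (1 + X * K) / ((1 - X) / (1 + X * K)) = ((1 - X) / (1 + K))⁻¹ := by
    rw [div_div_div_cancel_right₀ hXK, inv_div]
  have f2 : (1 - (1 - X) / (1 + X * K)) / (1 - (1 + K) / (1 + X * K)) = (t2 X K)⁻¹ := by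
    rw [ex, ey, t1, t2, div_div_div_cancel_right₀ hXK, inv_div, add_comm K 1, mul_comm K (X - 1)]
  have f3 : (1 - ((1 - X) / (1 + X * K))⁻¹) / (1 - ((1 + K) / (1 + X * K))⁻¹) =
      1 - -((1 + K) ^ 2 * G / (K * (1 + G) ^ 2)) := by
    have g1 : 1 - ((1 - X) / (1 + X * K))⁻¹ = -(X * (1 + K)) / (1 - X) := by
      rw [inv_div, eq_div_iff hX1', sub_mul, div_mul_cancel₀ _ hX1']; ring
    have g2 : 1 - ((1 + K) / (1 + X * K))⁻¹ = -(K * (X - 1)) / (1 + K) := by
      rw [inv_div, eq_div_iff hK1, sub_mul, div_mul_cancel₀ _ hK1]; ring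
    rw [g1, g2]
    have hk : K * (X - 1) ≠ 0 := mul_ne_zero hK hX1
    have e3 : -(X * (1 + K)) / (1 - X) / (-(K * (X - 1)) / (1 + K)) =
        (X * (1 + K) ^ 2) / ((1 - X) * (K * (X - 1))) := by
      field_simp
    rw [e3, div_eq_iff (mul_ne_zero hX1' hk)]
    field_simp
    linear_combination (-1) * hg1
  have g4 : Dv ((1 - X) / (1 + X * K)) = -Dv (t1 X K) := by
    have := hS1 ((1 - X) / (1 + X * K))
    rw [ex] at this
    linarith
  rw [f1, f2, f3, hS1, hS2, hS2, g4] at five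
  have k1 : -((1 - X) * G / (X * (1 + G))) = t2 X G := by
    rw [t2]; field_simp; ring
  have k2 : X * (1 + G) / (1 + X * G) = t1 X G := by
    rw [t1, add_comm G 1]
  rw [k1, k2] at key
  linarith

end Pool.Agent.TH609.UV
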